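import Pool.Agent.V11187.BT.Tree

/-!
The Bass trace conjecture for groups with maps to `π / [R, R]`, `π` acting on a tree (the reduction
is adapted from the starting file `Pool.Agent.Y75.BF.Thm`).
-/

set_option autoImplicit false

namespace Pool.Agent.V11187.BT

open MonoidAlgebra Pool.Agent.Y483 Pool.Agent.V11187.MG
open Pool.Agent.H23R2.Cyc (ell ell_single ell_mul_comm ell_eq_sum tf tf_apply tf_eq_zero)
open Pool.Agent.H26R2.IdemLI (AlmostDiv)
open Pool.Agent.H26R2.Bass
open Pool.Agent.Y75.BF (InfOrd NoPow good_of_noPower)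

universe u w

/-- The group `π` acts by automorphisms on a tree such that the elements of `R` which fix a vertex
have finite order, and an element which fixes a vertex and has infinite order modulo `R` is not
conjugate to a proper power modulo `R`. -/
def TreeRel (π : Type) [Group π] (R : Subgroup π) [R.Normal] : Prop :=
  ∃ (V : Type) (_ : MulAction π V) (Tr : SimpleGraph V), Tr.IsTree ∧
    (∀ (g : π) (u v : V), Tr.Adj u v → Tr.Adj (g • u) (g • v)) ∧
    ∀ (v : V) (x : π), x • v = v → (x ∈ R → ¬ InfOrd x) ∧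
      (InfOrd (QuotientGroup.mk x : π ⧸ R) → NoPow (QuotientGroup.mk x : π ⧸ R))

theorem noPow_tree (π : Type) [Group π] (R : Subgroup π) [R.Normal] (h : TreeRel π R)
    (g : π ⧸ ⁅R, R⁆) (hg : InfOrd g) : NoPow g := by
  obtain ⟨V, _, Tr, hT, hadj, hst⟩ := h
  obtain ⟨v₀⟩ := hT.connected.nonempty
  -- the elements which fix a vertex of the subdivision
  have hsub : ∀ (x : SV hadj) (y : π), y • x = x → ∃ v : V, y • v = v ∨ (y ^ 2) • v = v := by
    intro x y hy
    cases x with
    | ver v =>
      have h1 : (SV.ver (y • v) : SV hadj) = SV.ver v := hy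
      exact ⟨v, Or.inl (SV.ver.inj h1)⟩
    | mid e =>
      obtain ⟨e, he⟩ := e
      induction e using Sym2.ind with | h a b =>
      have h1 : y • (SV.mid ⟨s(a, b), he⟩ : SV hadj) = SV.mid ⟨s(a, b), he⟩ := hy
      have h2 : (s(a, b) : Sym2 V).map (fun v => y • v) = s(a, b) :=
        congrArg Subtype.val (SV.mid.inj h1)
      rw [Sym2.map_mk, Sym2.eq_iff] at h2
      rcases h2 with h2 | h2
      · exact ⟨a, Or.inl h2.1⟩
      · exact ⟨a, Or.inr (by rw [pow_two, mul_smul, h2.1, h2.2])⟩
  apply noPow_quo (v₀ := SV.ver v₀) (subQ_eq hadj) (tree_sub hadj hT v₀) R _ _ g hg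
  · intro x r hr hx
    obtain ⟨v, hv | hv⟩ := hsub x r hx
    · have h1 := (hst v r hv).1 hr
      rwa [infOrd_iff, not_not] at h1
    · have h1 := (hst v _ hv).1 (R.pow_mem hr 2)
      rw [infOrd_iff, not_not] at h1
      exact h1.of_pow two_ne_zero
  · intro x y hx hi
    obtain ⟨v, hv | hv⟩ := hsub x y hx
    · exact (hst v y hv).2 hi
    · intro m hm hc
      have h1 : InfOrd (QuotientGroup.mk (y ^ 2) : π ⧸ R) := by
        intro n hn h1
        apply hi (2 * n) (by omega)
        rw [pow_mul, ← QuotientGroup.mk_pow]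
        exact h1
      apply (hst v _ hv).2 h1 m hm
      obtain ⟨c, hc⟩ := isConj_iff.mp hc
      rw [isConj_iff]
      refine ⟨c, ?_⟩
      rw [QuotientGroup.mk_pow, ← conj_pow, hc, ← pow_mul, ← pow_mul, mul_comm]

/-- The element `h` of `H` is *detected*: every finitely generated subgroup `H0` containing `h` has a
homomorphism `s` to a group without elements of infinite order conjugate to proper powers, such
that `s h` has infinite order. -/
def Det (H : Type w) [Group H] (h : H) : Prop :=
  ∀ (H0 : Subgroup H) (_ : H0.FG) (hh : h ∈ H0), ∃ (L : Type) (_ : Group L) (s : H0 →* L),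
    (∀ x : L, InfOrd x → NoPow x) ∧ InfOrd (s ⟨h, hh⟩)

theorem det_pow {H : Type w} [Group H] {a : H} (n : ℕ) (ha : ¬ Det H a) : ¬ Det H (a ^ n) := by
  intro h
  apply ha
  intro H0 hH0 hh
  obtain ⟨L, _, s, hT, hs⟩ := h H0 hH0 (pow_mem hh n)
  refine ⟨L, inferInstance, s, hT, fun k hk h1 => hs k hk ?_⟩
  have e : (⟨a ^ n, pow_mem hh n⟩ : H0) = ⟨a, hh⟩ ^ n := rfl
  rw [e, map_pow, ← pow_mul, mul_comm, pow_mul, h1, one_pow]

theorem det_one {H : Type w} [Group H] : ¬ Det H (1 : H) := by
  intro h
  obtain ⟨L, _, s, hT, hs⟩ := h ⊥ ⟨∅, by simp⟩ (one_mem _)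
  apply hs 1 one_pos
  have e : (⟨1, one_mem _⟩ : (⊥ : Subgroup H)) = 1 := rfl
  rw [e, map_one, one_pow]

theorem det_conj' {H : Type w} [Group H] {a : H} (c : H) (h : Det H (c * a * c⁻¹)) : Det H a := by
  intro H0 hH0 hh
  have hFG : (H0.map (MulAut.conj c).toMonoidHom).FG := by
    obtain ⟨S, hS⟩ := hH0
    classical
    refine ⟨S.image (MulAut.conj c), ?_⟩
    rw [Finset.coe_image, ← hS, MonoidHom.map_closure]
    rfl
  obtain ⟨L, _, s, hT, hs⟩ := h (H0.map (MulAut.conj c).toMonoidHom) hFG ⟨a, hh, rfl⟩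
  let e : H0 →* H0.map (MulAut.conj c).toMonoidHom :=
    ((MulAut.conj c).toMonoidHom.comp H0.subtype).codRestrict _ (fun x => ⟨x, x.2, rfl⟩)
  exact ⟨L, inferInstance, s.comp e, hT, hs⟩

theorem det_conj {H : Type w} [Group H] {a : H} (c : H) (ha : ¬ Det H a) :
    ¬ Det H (c * a * c⁻¹) := fun h => ha (det_conj' c h)

/-- The rank vanishes at detected elements. -/
theorem tf_detected {R : Type u} [CommRing R] [IsDomain R] {H : Type w} [Group H] {n : ℕ}
    (A : Matrix (Fin n) (Fin n) (MonoidAlgebra R H)) (hA : A * A = A) (g : H)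
    (hg : Det H g) : tf (ind R g) A = 0 := by
  by_contra hne
  obtain ⟨H0, hH0, B, hB, h, hconj, hne'⟩ := exists_local A hA g hne
  apply hne'
  obtain ⟨c, hc⟩ := isConj_iff.1 hconj
  have hdet : Det H (h : H) := by
    apply det_conj' c
    rw [hc]
    exact hg
  obtain ⟨L, _, s, htame, hs⟩ := hdet H0 hH0 h.2
  apply tf_zero_of_good B hB h
  apply good_of_hom s h
  exact good_of_noPower _ (htame _ hs)

/-- Extensions. -/
theorem bass_ext (R : Type u) [CommRing R] [IsDomain R] (H : Type w) [Group H] (K : Subgroup H)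
    [K.Normal] (hK : ∀ h k : H, k ∈ K → InfOrd h → ¬ Det H h →
      ¬ Det H (h * k) → IsConj h (h * k)) (hQ : BassFor R (H ⧸ K)) : BassFor R H := by
  classical
  intro n A hA g hg
  have hA' : A * A = A := hA
  change tau A g = 0
  rw [tau_eq]
  by_cases hfin : orderOf g = 0
  swap
  · exact tf_zero_of_finite A hA' g hfin hg
  by_cases hd : Det H g
  · exact tf_detected A hA' g hd
  have hinf : ∀ n : ℕ, 0 < n → g ^ n ≠ 1 := orderOf_eq_zero_iff'.1 hfin
  -- the quotient
  let π : H →* H ⧸ K := QuotientGroup.mk' K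
  have hord : orderOf (π g) = 0 := by
    rw [orderOf_eq_zero_iff']
    intro j hj h1
    rw [← map_pow] at h1
    have h2 : g ^ j ∈ K := (QuotientGroup.eq_one_iff _).1 h1
    have h3 := hK (g ^ j) (g ^ j)⁻¹ (inv_mem h2) (by
      intro n hn h3
      rw [← pow_mul] at h3
      exact hinf _ (Nat.mul_pos hj hn) h3) (det_pow j hd) (by
      rw [mul_inv_cancel]
      exact det_one)
    rw [mul_inv_cancel] at h3
    exact hinf j hj (isConj_one_right.1 h3.symm)
  have hB : A.map (mapDomainRingHom R π) * A.map (mapDomainRingHom R π) =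
      A.map (mapDomainRingHom R π) := by
    rw [← Matrix.map_mul, hA']
  have h1 := hQ n (A.map (mapDomainRingHom R π)) hB (π g) (by
    rw [hord, Nat.cast_zero]; exact not_isUnit_zero)
  change tau (A.map (mapDomainRingHom R π)) (π g) = 0 at h1
  rw [tau_eq, tf_apply] at h1
  have h2 : ell (fun h => ind R (π g) (π h)) (∑ i, A i i) = 0 := by
    rw [map_sum, ← h1]
    apply Finset.sum_congr rfl
    intro i _
    exact (ell_map π (ind R (π g)) (A i i)).symm
  have h3 : ell (fun h => ind R (π g) (π h) - ind R g h) (∑ i, A i i) = 0 := by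
    apply ell_class
    · intro a b hab
      have e1 : ind R (π g) (π a) = ind R (π g) (π b) := by
        have hab' : IsConj (π a) (π b) := MonoidHom.map_isConj π hab
        unfold ind
        by_cases h : IsConj (π a) (π g)
        · rw [if_pos h, if_pos (hab'.symm.trans h)]
        · rw [if_neg h, if_neg (fun h' => h (hab'.trans h'))]
      have e2 : ind R g a = ind R g b := by
        unfold ind
        by_cases h : IsConj a g
        · rw [if_pos h, if_pos (hab.symm.trans h)]
        · rw [if_neg h, if_neg (fun h' => h (hab.trans h'))]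
      rw [e1, e2]
    · intro h hh
      have h5 : tf (ind R h) A = 0 := by
        apply tf_detected A hA' h
        by_contra hnd
        apply hh
        have h4 : IsConj (π h) (π g) ↔ IsConj h g := by
          refine ⟨fun h4 => ?_, fun h4 => MonoidHom.map_isConj π h4⟩
          obtain ⟨c, hc⟩ := isConj_iff.1 h4
          obtain ⟨c, rfl⟩ := QuotientGroup.mk_surjective c
          have h5 : π (g⁻¹ * (c * h * c⁻¹)) = 1 := by
            rw [map_mul, map_mul, map_mul, map_inv, map_inv, inv_mul_eq_one]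
            exact hc.symm
          have h6 : g⁻¹ * (c * h * c⁻¹) ∈ K := (QuotientGroup.eq_one_iff _).1 h5
          have h7 := hK g _ h6 hinf hd (by
            rw [mul_inv_cancel_left]
            exact det_conj c hnd)
          rw [mul_inv_cancel_left] at h7
          exact (isConj_iff.2 ⟨c, rfl⟩ : IsConj h (c * h * c⁻¹)).trans h7.symm
        unfold ind
        by_cases h5 : IsConj h g
        · rw [if_pos h5, if_pos (h4.2 h5), sub_self]
        · rw [if_neg h5, if_neg (fun h6 => h5 (h4.1 h6)), sub_self]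
      rw [tf_apply] at h5
      rw [map_sum]
      exact h5
  have h4 : ell (ind R g) (∑ i, A i i) = 0 := by
    have hs : ∀ y, (∑ i, A i i).coeff y ≠ 0 → y ∈ (∑ i, A i i).coeff.support := fun y hy =>
      Finsupp.mem_support_iff.2 hy
    rw [ell_eq_sum _ _ _ hs] at h2 h3 ⊢
    have h6 : ∑ y ∈ (∑ i, A i i).coeff.support, (∑ i, A i i).coeff y * ind R g y =
        ∑ y ∈ (∑ i, A i i).coeff.support, (∑ i, A i i).coeff y * ind R (π g) (π y) -
        ∑ y ∈ (∑ i, A i i).coeff.support,
          (∑ i, A i i).coeff y * (ind R (π g) (π y) - ind R g y) := by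
      rw [← Finset.sum_sub_distrib]
      apply Finset.sum_congr rfl
      intro y _
      ring
    rw [h6, h2, h3, sub_zero]
  rw [tf_apply, ← map_sum]
  exact h4

/-- The case `K = H`. -/
theorem bass_detect (R : Type u) [CommRing R] [IsDomain R] (H : Type w) [Group H]
    (hH : ∀ h : H, InfOrd h → Det H h) : BassFor R H := by
  intro n A hA g hg
  have hA' : A * A = A := hA
  change tau A g = 0
  rw [tau_eq]
  by_cases hfin : orderOf g = 0
  · exact tf_detected A hA' g (hH g (orderOf_eq_zero_iff'.1 hfin))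
  · exact tf_zero_of_finite A hA' g hfin hg

/-- The element `h` of `H` is *detected by tree groups*: every finitely generated subgroup `H0`
containing `h` has a homomorphism `s` to a group `π / [R, R]`, with `TreeRel π R`, such that `s h` has
infinite order. -/
def DetT (H : Type w) [Group H] (h : H) : Prop :=
  ∀ (H0 : Subgroup H) (_ : H0.FG) (hh : h ∈ H0),
    ∃ (π : Type) (_ : Group π) (R : Subgroup π) (_ : R.Normal) (s : H0 →* π ⧸ ⁅R, R⁆),
      TreeRel π R ∧ InfOrd (s ⟨h, hh⟩)

theorem DetT.det {H : Type w} [Group H] {h : H} (hd : DetT H h) : Det H h := by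
  intro H0 hH0 hh
  obtain ⟨π, _, R, _, s, hr, hs⟩ := hd H0 hH0 hh
  exact ⟨π ⧸ ⁅R, R⁆, inferInstance, s, noPow_tree π R hr, hs⟩

end Pool.Agent.V11187.BT
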