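import Pool.Agent.V11187.MG.Tr
import Pool.Agent.Y75.BF.Thm

/-!
For a group `π` which acts on a tree and a normal subgroup `R` of `π`: conjugacy of an element of
`π / [R, R]` to a proper power.
-/

set_option autoImplicit false

namespace Pool.Agent.V11187.BT

open Finsupp Pool.Agent.Y483 Pool.Agent.V11187.MG
open Pool.Agent.Y75.BF (InfOrd NoPow)

theorem infOrd_iff {G : Type*} [Group G] (g : G) : InfOrd g ↔ ¬ IsOfFinOrder g := by
  rw [isOfFinOrder_iff_pow_eq_one]
  constructor
  · rintro h ⟨n, hn, h1⟩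
    exact h n hn h1
  · intro h n hn h1
    exact h ⟨n, hn, h1⟩

section Grp

variable {π V E : Type} [Group π] [MulAction π V] [MulAction π E] {Q : Edges V E} {v₀ : V}
  (hQ : EqE π Q) (hT : ∀ v, ∃! p, Q.del p = single v 1 - single v₀ 1)
  (R : Subgroup π) [hR : R.Normal]

include hQ in
/-- An element of `R` whose chain in the quotient graph is zero has a power in the commutator
subgroup of `R`, if the elements of `R` which fix a vertex have finite order. -/
theorem kR_pow_mem' (hfin : ∀ (v : V) (r : π), r ∈ R → r • v = v → IsOfFinOrder r) (k : R)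
    (hk : cB hT R k.1 = 0) : ∃ m : ℕ, 0 < m ∧ k ^ m ∈ commutator R := by
  classical
  let Bq := Abelianization R ⧸ CommGroup.torsion (Abelianization R)
  let cls : R →* Bq := (QuotientGroup.mk' _).comp Abelianization.of
  have hcls : ∀ r : R, IsOfFinOrder r → cls r = 1 := by
    intro r hr
    change (QuotientGroup.mk (Abelianization.of r) : Bq) = 1
    rw [QuotientGroup.eq_one_iff]
    exact (Abelianization.of : R →* _).isOfFinOrder hr
  have hcls' : ∀ r : R, cls r = 1 → ∃ m : ℕ, 0 < m ∧ r ^ m ∈ commutator R := by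
    intro r hr
    change (QuotientGroup.mk (Abelianization.of r) : Bq) = 1 at hr
    rw [QuotientGroup.eq_one_iff] at hr
    obtain ⟨m, hm, h⟩ := isOfFinOrder_iff_pow_eq_one.mp hr
    refine ⟨m, hm, ?_⟩
    rw [← map_pow] at h
    rwa [← Abelianization.ker_of, MonoidHom.mem_ker]
  -- representatives of the vertices
  obtain ⟨f, hf⟩ : ∃ f : Orb R V → V, ∀ o, orb R (f o) = o :=
    ⟨fun o => (orb_surj o).choose, fun o => (orb_surj o).choose_spec⟩
  have ha : ∀ v : V, ∃ r : R, r.1 • f (orb R v) = v := by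
    intro v
    obtain ⟨r, hr, h⟩ := orb_eq.mp (hf (orb R v)).symm
    exact ⟨⟨r, hr⟩, h⟩
  choose a ha using ha
  let A : V → Additive Bq := fun v => Additive.ofMul (cls (a v))
  have hA : ∀ (r : R) (v : V), A (r.1 • v) = Additive.ofMul (cls r) + A v := by
    intro r v
    have ho : orb R (r.1 • v) = orb R v := orb_eq.mpr ⟨r.1, r.2, rfl⟩
    have h1 : (a (r.1 • v)).1 • f (orb R v) = (r * a v).1 • f (orb R v) := by
      rw [← ho, ha, ho, Subgroup.coe_mul, mul_smul, ha]
    have h2 : cls ((r * a v)⁻¹ * a (r.1 • v)) = 1 := by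
      apply hcls
      have h3 : ((r * a v)⁻¹ * a (r.1 • v)).1 • f (orb R v) = f (orb R v) := by
        rw [Subgroup.coe_mul, mul_smul, h1, ← mul_smul]
        rw [← Subgroup.coe_mul, inv_mul_cancel]
        exact one_smul _ _
      have h6 := hfin _ _ ((r * a v)⁻¹ * a (r.1 • v)).2 h3
      exact (R.subtype_injective.isOfFinOrder_iff (f := R.subtype)).mp h6
    change Additive.ofMul (cls (a (r.1 • v))) = Additive.ofMul (cls r * cls (a v))
    rw [← map_mul]
    congr 1
    rw [map_mul, map_inv] at h2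
    exact (inv_mul_eq_one.mp h2).symm
  -- the homomorphism on the chains of the quotient graph
  let AA : (V →₀ ℤ) →ₗ[ℤ] Additive Bq := Finsupp.linearCombination ℤ A
  have hlam : ∀ (e e' : E), orb R e = orb R e' → A (Q.t e) - A (Q.s e) = A (Q.t e') - A (Q.s e') := by
    intro e e' h
    obtain ⟨r, hr, h2⟩ := orb_eq.mp h
    have h3 := hA ⟨r, hr⟩ (Q.t e')
    have h4 := hA ⟨r, hr⟩ (Q.s e')
    rw [← h2, hQ.t_smul, hQ.s_smul, h3, h4]
    abel
  obtain ⟨fE, hfE⟩ : ∃ f : Orb R E → E, ∀ o, orb R (f o) = o :=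
    ⟨fun o => (orb_surj o).choose, fun o => (orb_surj o).choose_spec⟩
  let L : (Orb R E →₀ ℤ) →ₗ[ℤ] Additive Bq :=
    Finsupp.linearCombination ℤ (fun o => A (Q.t (fE o)) - A (Q.s (fE o)))
  have hL : ∀ p : E →₀ ℤ, L (prE R p) = AA (Q.del p) := by
    intro p
    apply int_ind (fun p => L (prE R p)) (fun p => AA (Q.del p))
      (fun a b => by simp only [map_add]) (fun a b => by simp only [map_add])
    intro e
    simp only [prE_single, Edges.del_single, map_sub, L, AA, Finsupp.linearCombination_single,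
      one_smul]
    exact hlam _ _ (hfE _)
  have h1 : L (cB hT R k.1) = Additive.ofMul (cls k) := by
    have h2 : L (cB hT R k.1) = A (k.1 • v₀) - A v₀ := by
      unfold cB cT
      rw [hL, del_path, map_sub]
      simp only [AA, Finsupp.linearCombination_single, one_smul]
    rw [h2, hA]
    abel
  rw [hk, map_zero] at h1
  apply hcls'
  exact (Additive.ofMul.injective h1).symm

/-- The graph data of the image of `π`. -/
noncomputable def datT : Pool.Agent.Y75.BF.Gr.Dat (π ⧸ R) (Orb R V) (Orb R E) (IM hQ hT R) where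
  s := (quoQ Q R hQ).s
  t := (quoQ Q R hQ).t
  s_smul := (quoQ_eq hQ R).s_smul
  t_smul := (quoQ_eq hQ R).t_smul
  v0 := orb R v₀
  γ := (magT hQ hT R).γ
  c := (magT hQ hT R).c
  mul := (magT hQ hT R).mul
  del := (magT hQ hT R).del
  inj g h1 h2 := by
    apply (magT hQ hT R).inj g 1
    · rw [h1, map_one]
    · rw [h2]
      rfl

include hQ hT in
/-- **In `π / [R, R]` the elements of infinite order are not conjugate to proper powers.** -/
theorem noPow_quo (h1 : ∀ (v : V) (r : π), r ∈ R → r • v = v → IsOfFinOrder r)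
    (h2 : ∀ (v : V) (x : π), x • v = v → InfOrd (QuotientGroup.mk x : π ⧸ R) →
      NoPow (QuotientGroup.mk x : π ⧸ R)) (g : π ⧸ ⁅R, R⁆) (hg : InfOrd g) : NoPow g := by
  intro m hm hc
  -- the kernel of the projection is torsion
  have htor : ∀ x : π ⧸ ⁅R, R⁆, pM hQ hT R x = 1 → IsOfFinOrder x := by
    intro x hx
    induction x using QuotientGroup.induction_on with | H y =>
    have e1 : muT hQ hT R y = 1 := congrArg Subtype.val hx
    have e2 : (QuotientGroup.mk y : π ⧸ R) = 1 := congrArg SemidirectProduct.right e1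
    have e3 : Multiplicative.ofAdd (cB hT R y) = 1 := congrArg SemidirectProduct.left e1
    obtain ⟨n, hn, h⟩ := kR_pow_mem' hQ hT R h1 ⟨y, (QuotientGroup.eq_one_iff y).mp e2⟩ e3
    rw [isOfFinOrder_iff_pow_eq_one]
    refine ⟨n, hn, ?_⟩
    rw [← QuotientGroup.mk_pow, QuotientGroup.eq_one_iff]
    rw [← Subgroup.map_subtype_commutator]
    exact ⟨_, h, rfl⟩
  obtain ⟨c, hc'⟩ := isConj_iff.mp hc
  obtain ⟨n, hn, h⟩ := Pool.Agent.Y75.BF.Gr.finite_order_of_conj_pow (datT hQ hT R) (by
    intro o x hx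
    obtain ⟨v, rfl⟩ := orb_surj o
    induction x using QuotientGroup.induction_on with | H y =>
    rw [mk_smul_orb, orb_eq] at hx
    obtain ⟨r, hr, hrv⟩ := hx
    have e : (QuotientGroup.mk y : π ⧸ R) = QuotientGroup.mk (r⁻¹ * y) := by
      rw [QuotientGroup.eq]
      have e1 : y⁻¹ * (r⁻¹ * y) = y⁻¹ * r⁻¹ * y⁻¹⁻¹ := by group
      rw [e1]
      exact hR.conj_mem _ (R.inv_mem hr) _
    have hfix : (r⁻¹ * y) • v = v := by rw [mul_smul, ← hrv, inv_smul_smul]
    by_cases hi : InfOrd (QuotientGroup.mk (r⁻¹ * y) : π ⧸ R)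
    · right
      rw [e]
      exact h2 v _ hfix hi
    · left
      rw [e]
      by_contra hne
      apply hi
      intro n hn h
      exact hne ⟨n, hn, h⟩) (pM hQ hT R g) (pM hQ hT R c) m hm (by
      rw [← map_mul, ← map_inv, ← map_mul, hc', map_pow])
  rw [infOrd_iff] at hg
  apply hg
  have h3 : IsOfFinOrder (g ^ n) := htor _ (by rw [map_pow, h])
  exact h3.of_pow hn.ne'

end Grp

end Pool.Agent.V11187.BT
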